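import Pool.Agent.helper40.TW.SpecG

/-!
# Project TW, block G, row GA0: primes in short windows twisted by all good primitive characters
-/

set_option autoImplicit false

open Complex MeasureTheory Metric
open scoped ComplexConjugate ArithmeticFunction.vonMangoldt

namespace Pool.Agent.TWG

open Pool.Agent.helper6.LD (wt)
open Pool.Agent.helper85.BVP (ex)
open Pool.Agent.TW (Win Pw)

theorem GA0_win (k N n : ℕ) (hk : 4 ≤ k) (hN : 2 ≤ N) (h1 : k * Real.log N < Real.log n)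
    (h2 : Real.log n < k * Real.log N + 2 / N) : n ∈ Win k N := by
  have hN' : (2 : ℝ) ≤ N := by exact_mod_cast hN
  have hk' : (4 : ℝ) ≤ k := by exact_mod_cast hk
  have hlog : 0 < Real.log N := Real.log_pos (by linarith)
  have hn : 0 < n := by
    rcases Nat.eq_zero_or_pos n with rfl | h
    · rw [Nat.cast_zero, Real.log_zero] at h1
      exact absurd h1 (not_lt.2 (by positivity))
    · exact h
  have hn' : (0 : ℝ) < n := by exact_mod_cast hn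
  rw [Win, Finset.mem_Ioo]
  constructor
  · have : ((N : ℝ) ^ k) < n := by
      rw [← Real.log_lt_log_iff (by positivity) hn', Real.log_pow]
      exact h1
    exact_mod_cast this
  · have h3 : 1 - ((N + 1 : ℝ) / N)⁻¹ ≤ Real.log ((N + 1 : ℝ) / N) :=
      Real.one_sub_inv_le_log_of_pos (by positivity)
    rw [Real.log_div (by positivity) (by positivity), inv_div] at h3
    have h4 : 1 - (N : ℝ) / (N + 1) = 1 / (N + 1) := by
      field_simp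
      ring
    have h5 : 2 / (N : ℝ) ≤ k * (1 / (N + 1)) := by
      rw [mul_one_div, div_le_div_iff₀ (by positivity) (by positivity)]
      nlinarith
    have h6 : (k : ℝ) * (1 / (N + 1)) ≤ k * (Real.log (N + 1) - Real.log N) :=
      mul_le_mul_of_nonneg_left (by linarith) (by linarith)
    have : (n : ℝ) < ((N + 1 : ℝ) ^ k) := by
      rw [← Real.log_lt_log_iff hn' (by positivity), Real.log_pow]
      linarith
    exact_mod_cast this

theorem GA0_tri {h x : ℝ} (hh : 0 < h) : 0 ≤ tri h x ∧ tri h x ≤ 1 ∧ (tri h x ≠ 0 → |x| < h) := by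
  refine ⟨le_max_left _ _, max_le zero_le_one ?_, fun hne => ?_⟩
  · have : 0 ≤ |x| / h := by positivity
    linarith
  · by_contra hcon
    refine hne (max_eq_left ?_)
    have : 1 ≤ |x| / h := (one_le_div hh).2 (not_lt.1 hcon)
    linarith

/-- nonprime numbers of the window -/
theorem GA0_np (hWTB : WTB_stmt) (k N K n : ℕ) (hk : 15 ≤ k) (hN : 2 ≤ N) (hn : n ∈ Win k N) :
    wt (1 + 1 / 16) (K + 1) n ≤ 16 ^ K * (((N : ℝ) ^ 5)⁻¹ * (Λ n * (n : ℝ) ^ (-(2 / 3) : ℝ))) := by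
  rw [Win, Finset.mem_Ioo] at hn
  have hN' : (2 : ℝ) ≤ N := by exact_mod_cast hN
  have hn1 : 1 ≤ n := by omega
  have hn0 : (0 : ℝ) < n := by exact_mod_cast hn1
  have h1 := (hWTB (K + 1) n (1 / 16) (by omega) hn1 (by norm_num)).1
  rw [Nat.add_sub_cancel] at h1
  have h2 : (((1 : ℝ) / 16) ^ K)⁻¹ = 16 ^ K := by
    rw [one_div, inv_pow, inv_inv]
  rw [h2] at h1
  refine h1.trans (mul_le_mul_of_nonneg_left ?_ (by positivity))
  have h3 : (N : ℝ) ^ 15 ≤ n := by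
    have : N ^ 15 ≤ n := (Nat.pow_le_pow_right (by omega) hk).trans hn.1.le
    exact_mod_cast this
  have h4 : (N : ℝ) ^ 5 ≤ (n : ℝ) ^ (1 / 3 : ℝ) := by
    calc (N : ℝ) ^ 5 = ((N : ℝ) ^ 15) ^ (1 / 3 : ℝ) := by
          rw [← Real.rpow_natCast (N : ℝ) 15, ← Real.rpow_mul (by positivity), ← Real.rpow_natCast (N : ℝ) 5]
          norm_num
      _ ≤ (n : ℝ) ^ (1 / 3 : ℝ) := Real.rpow_le_rpow (by positivity) h3 (by norm_num)
  have h5 : (n : ℝ)⁻¹ = ((n : ℝ) ^ (1 / 3 : ℝ))⁻¹ * (n : ℝ) ^ (-(2 / 3) : ℝ) := by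
    rw [← Real.rpow_neg hn0.le, ← Real.rpow_add hn0, ← Real.rpow_neg_one]
    norm_num
  have h6 : ((n : ℝ) ^ (1 / 3 : ℝ))⁻¹ ≤ ((N : ℝ) ^ 5)⁻¹ := inv_anti₀ (by positivity) h4
  have h7 : (0 : ℝ) ≤ Λ n := ArithmeticFunction.vonMangoldt_nonneg
  rw [div_eq_mul_inv, h5]
  calc Λ n * (((n : ℝ) ^ (1 / 3 : ℝ))⁻¹ * (n : ℝ) ^ (-(2 / 3) : ℝ)) =
        ((n : ℝ) ^ (1 / 3 : ℝ))⁻¹ * (Λ n * (n : ℝ) ^ (-(2 / 3) : ℝ)) := by ring
    _ ≤ _ := mul_le_mul_of_nonneg_right h6 (by positivity)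

/-- one character -/
theorem GA0_one (hWTB : WTB_stmt) (P : ℝ)
    (hP : ∀ s : Finset ℕ, ∑ n ∈ s, (if n.Prime then 0 else Λ n * (n : ℝ) ^ (-(2 / 3) : ℝ)) ≤ P)
    {q : ℕ} (χ : DirichletCharacter ℂ q) (k N K : ℕ) (h u₀ W : ℝ) (hN : 2 ≤ N) (hk : 15 ≤ k)
    (hW : 0 < W) (hh : 0 < h) (hwt : ∀ n, 0 ≤ wt (1 + 1 / 16) (K + 1) n)
    (hwin : ∀ n : ℕ, u₀ - h < Real.log n → Real.log n < u₀ + h → n ∈ Win k N)
    (hfw : ∀ p : ℕ, p.Prime →
      Real.log p * fw K h u₀ p = W * (wt (1 + 1 / 16) (K + 1) p * tri h (Real.log p - u₀))) :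
    ‖∑ p ∈ Win k N, ((Real.log p * (if p.Prime then fw K h u₀ p else 0) : ℝ) : ℂ) * χ p‖ ≤
      W * (‖∑' n : ℕ, (wt (1 + 1 / 16) (K + 1) n : ℂ) * χ n * ((tri h (Real.log n - u₀) : ℝ) : ℂ)‖ +
        16 ^ K * (((N : ℝ) ^ 5)⁻¹ * P)) := by
  set t : ℕ → ℂ := fun n => (wt (1 + 1 / 16) (K + 1) n : ℂ) * χ n * ((tri h (Real.log n - u₀) : ℝ) : ℂ)
    with ht
  have hout : ∀ n, n ∉ Win k N → t n = 0 := by
    intro n hn
    have : tri h (Real.log n - u₀) = 0 := by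
      by_contra hne
      have h1 := abs_lt.1 ((GA0_tri hh).2.2 hne)
      exact hn (hwin n (by linarith) (by linarith))
    simp only [ht, this, Complex.ofReal_zero, mul_zero]
  have hts : ∑' n, t n = ∑ n ∈ Win k N, t n := tsum_eq_sum fun n hn => hout n hn
  have hsum : ∑ p ∈ Win k N, ((Real.log p * (if p.Prime then fw K h u₀ p else 0) : ℝ) : ℂ) * χ p =
      (W : ℂ) * (∑ n ∈ Win k N, t n - ∑ n ∈ Win k N, (if n.Prime then 0 else t n)) := by
    rw [← Finset.sum_sub_distrib, Finset.mul_sum]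
    refine Finset.sum_congr rfl fun p _ => ?_
    split_ifs with hp
    · rw [hfw p hp, sub_zero]
      simp only [ht]
      push_cast
      ring
    · rw [sub_self, mul_zero, mul_zero, Complex.ofReal_zero, zero_mul]
  have hterm : ∀ n ∈ Win k N, ‖(if n.Prime then 0 else t n)‖ ≤
      16 ^ K * (((N : ℝ) ^ 5)⁻¹ * (if n.Prime then 0 else Λ n * (n : ℝ) ^ (-(2 / 3) : ℝ))) := by
    intro n hn
    split_ifs with hp
    · rw [norm_zero, mul_zero, mul_zero]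
    · refine le_trans ?_ (GA0_np hWTB k N K n hk hN hn)
      simp only [ht]
      rw [norm_mul, norm_mul, Complex.norm_real, Complex.norm_real, Real.norm_eq_abs, Real.norm_eq_abs,
        abs_of_nonneg (hwt n), abs_of_nonneg (GA0_tri hh).1]
      have h1 : ‖χ n‖ ≤ 1 := DirichletCharacter.norm_le_one χ _
      calc wt (1 + 1 / 16) (K + 1) n * ‖χ n‖ * tri h (Real.log n - u₀) ≤
            wt (1 + 1 / 16) (K + 1) n * 1 * 1 :=
            mul_le_mul (mul_le_mul_of_nonneg_left h1 (hwt n)) (GA0_tri hh).2.1 (GA0_tri hh).1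
              (by rw [mul_one]; exact hwt n)
        _ = _ := by ring
  rw [hsum, norm_mul, Complex.norm_real, Real.norm_eq_abs, abs_of_pos hW, hts]
  refine mul_le_mul_of_nonneg_left ?_ hW.le
  refine (norm_sub_le _ _).trans (add_le_add le_rfl ?_)
  calc ‖∑ n ∈ Win k N, (if n.Prime then 0 else t n)‖ ≤
        ∑ n ∈ Win k N, ‖(if n.Prime then 0 else t n)‖ := norm_sum_le _ _
    _ ≤ ∑ n ∈ Win k N,
        16 ^ K * (((N : ℝ) ^ 5)⁻¹ * (if n.Prime then 0 else Λ n * (n : ℝ) ^ (-(2 / 3) : ℝ))) :=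
        Finset.sum_le_sum hterm
    _ = 16 ^ K * (((N : ℝ) ^ 5)⁻¹ *
        ∑ n ∈ Win k N, (if n.Prime then 0 else Λ n * (n : ℝ) ^ (-(2 / 3) : ℝ))) := by
        rw [Finset.mul_sum, Finset.mul_sum]
    _ ≤ _ := by
        have := hP (Win k N)
        gcongr

theorem GA0_card (c₀ : ℝ) (N : ℕ) :
    ∑ q ∈ Finset.Icc 2 N, ((GC c₀ q).card : ℝ) ≤ (N : ℝ) ^ 2 := by
  classical
  have h1 : ∀ q ∈ Finset.Icc 2 N, ((GC c₀ q).card : ℝ) ≤ N := by
    intro q hq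
    rw [Finset.mem_Icc] at hq
    haveI : NeZero q := ⟨by omega⟩
    have h2 : (GC c₀ q).card ≤ (Finset.univ : Finset (DirichletCharacter ℂ q)).card :=
      Finset.card_le_card (Finset.filter_subset _ _)
    have h3 : (Finset.univ : Finset (DirichletCharacter ℂ q)).card = Nat.totient q := by
      rw [Finset.card_univ, ← Nat.card_eq_fintype_card]
      exact DirichletCharacter.card_eq_totient_of_hasEnoughRootsOfUnity ℂ q
    have h4 : (GC c₀ q).card ≤ N := by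
      have := Nat.totient_le q
      omega
    exact_mod_cast h4
  calc ∑ q ∈ Finset.Icc 2 N, ((GC c₀ q).card : ℝ) ≤ ∑ _q ∈ Finset.Icc 2 N, (N : ℝ) :=
        Finset.sum_le_sum h1
    _ = ((Finset.Icc 2 N).card : ℝ) * N := by rw [Finset.sum_const, nsmul_eq_mul]
    _ ≤ (N : ℝ) * N := by
        refine mul_le_mul_of_nonneg_right ?_ (Nat.cast_nonneg N)
        rw [Nat.card_Icc]
        exact_mod_cast (by omega : N + 1 - 2 ≤ N)
    _ = (N : ℝ) ^ 2 := by ring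

/-- the sum over the characters -/
theorem GA0_sum (hWTB : WTB_stmt) (P : ℝ) (hP0 : 0 ≤ P)
    (hP : ∀ s : Finset ℕ, ∑ n ∈ s, (if n.Prime then 0 else Λ n * (n : ℝ) ^ (-(2 / 3) : ℝ)) ≤ P)
    (c₀ : ℝ) (k N K : ℕ) (h u₀ W B : ℝ) (hN : 2 ≤ N) (hk : 15 ≤ k)
    (hW : 0 < W) (hh : 0 < h) (hwt : ∀ n, 0 ≤ wt (1 + 1 / 16) (K + 1) n)
    (hwin : ∀ n : ℕ, u₀ - h < Real.log n → Real.log n < u₀ + h → n ∈ Win k N)
    (hfw : ∀ p : ℕ, p.Prime →
      Real.log p * fw K h u₀ p = W * (wt (1 + 1 / 16) (K + 1) p * tri h (Real.log p - u₀)))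
    (hB : ∑ q ∈ Finset.Icc 2 N, ∑ χ ∈ GC c₀ q,
      ‖∑' n : ℕ, (wt (1 + 1 / 16) (K + 1) n : ℂ) * χ n * ((tri h (Real.log n - u₀) : ℝ) : ℂ)‖ ≤ B) :
    ∑ q ∈ Finset.Icc 2 N, ∑ χ ∈ GC c₀ q,
      ‖∑ p ∈ Win k N, ((Real.log p * (if p.Prime then fw K h u₀ p else 0) : ℝ) : ℂ) * χ p‖ ≤
      W * (B + (N : ℝ) ^ 2 * (16 ^ K * (((N : ℝ) ^ 5)⁻¹ * P))) := by
  calc ∑ q ∈ Finset.Icc 2 N, ∑ χ ∈ GC c₀ q,
      ‖∑ p ∈ Win k N, ((Real.log p * (if p.Prime then fw K h u₀ p else 0) : ℝ) : ℂ) * χ p‖ ≤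
      ∑ q ∈ Finset.Icc 2 N, ∑ χ ∈ GC c₀ q,
        W * (‖∑' n : ℕ, (wt (1 + 1 / 16) (K + 1) n : ℂ) * χ n * ((tri h (Real.log n - u₀) : ℝ) : ℂ)‖ +
          16 ^ K * (((N : ℝ) ^ 5)⁻¹ * P)) :=
        Finset.sum_le_sum fun q _ => Finset.sum_le_sum fun χ _ =>
          GA0_one hWTB P hP χ k N K h u₀ W hN hk hW hh hwt hwin hfw
    _ = W * (∑ q ∈ Finset.Icc 2 N, ∑ χ ∈ GC c₀ q,
        ‖∑' n : ℕ, (wt (1 + 1 / 16) (K + 1) n : ℂ) * χ n * ((tri h (Real.log n - u₀) : ℝ) : ℂ)‖ +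
        (∑ q ∈ Finset.Icc 2 N, ((GC c₀ q).card : ℝ)) * (16 ^ K * (((N : ℝ) ^ 5)⁻¹ * P))) := by
        rw [Finset.sum_mul, ← Finset.sum_add_distrib, Finset.mul_sum]
        refine Finset.sum_congr rfl fun q _ => ?_
        rw [← Finset.mul_sum, Finset.sum_add_distrib, Finset.sum_const, nsmul_eq_mul]
    _ ≤ _ := by
        refine mul_le_mul_of_nonneg_left ?_ hW.le
        refine add_le_add hB (mul_le_mul_of_nonneg_right (GA0_card c₀ N) ?_)
        positivity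

/-- the final numerical inequality -/
theorem GA0_num (C η' P h u₀ W : ℝ) (k N K : ℕ) (hC : 1 ≤ C) (hη : 0 < η') (hP0 : 0 ≤ P)
    (hN : 2 ≤ N) (hk : 1 ≤ k) (hKN : K ≤ N) (hu : u₀ = k * Real.log N + 1 / N) (hh : h = 1 / N)
    (hPN : 2 * P ≤ η' * N) (hW1 : W ≤ C * Real.exp u₀ * √((K : ℝ) + 1) / 16 ^ K) :
    W * (η' * (h * 16 ^ K / √((K : ℝ) + 1)) + (N : ℝ) ^ 2 * (16 ^ K * (((N : ℝ) ^ 5)⁻¹ * P))) ≤
      6 * C * η' * (N : ℝ) ^ (k - 1) := by
  have hN' : (2 : ℝ) ≤ N := by exact_mod_cast hN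
  have hN0 : (0 : ℝ) < N := by linarith
  have hK' : (K : ℝ) ≤ N := by exact_mod_cast hKN
  have hh0 : 0 < h := by rw [hh]; positivity
  have hsq : 0 < √((K : ℝ) + 1) := Real.sqrt_pos.2 (by positivity)
  have hsq2 : √((K : ℝ) + 1) ≤ 2 * N := by
    have h1 : √((K : ℝ) + 1) ≤ (K : ℝ) + 1 := by
      rw [Real.sqrt_le_iff]
      have : (0 : ℝ) ≤ K := Nat.cast_nonneg K
      constructor
      · linarith
      · nlinarith
    linarith
  have hexp : Real.exp u₀ ≤ 3 * (N : ℝ) ^ k := by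
    rw [hu, Real.exp_add, Real.exp_nat_mul, Real.exp_log hN0, mul_comm]
    refine mul_le_mul_of_nonneg_right ?_ (by positivity)
    calc Real.exp (1 / N) ≤ Real.exp 1 := Real.exp_le_exp.2 (by
          rw [div_le_one hN0]; linarith)
      _ ≤ 3 := by linarith [Real.exp_one_lt_d9]
  have hA : 0 ≤ η' * (h * 16 ^ K / √((K : ℝ) + 1)) + (N : ℝ) ^ 2 * (16 ^ K * (((N : ℝ) ^ 5)⁻¹ * P)) := by
    positivity
  have e1 : C * Real.exp u₀ * √((K : ℝ) + 1) / 16 ^ K * (η' * (h * 16 ^ K / √((K : ℝ) + 1)) +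
      (N : ℝ) ^ 2 * (16 ^ K * (((N : ℝ) ^ 5)⁻¹ * P))) =
      C * Real.exp u₀ * (η' * h + √((K : ℝ) + 1) * (P / (N : ℝ) ^ 3)) := by
    field_simp
  have e2 : √((K : ℝ) + 1) * (P / (N : ℝ) ^ 3) ≤ η' * h := by
    calc √((K : ℝ) + 1) * (P / (N : ℝ) ^ 3) ≤ 2 * N * (P / (N : ℝ) ^ 3) :=
          mul_le_mul_of_nonneg_right hsq2 (by positivity)
      _ = 2 * P / (N : ℝ) ^ 2 := by
          field_simp
      _ ≤ η' * N / (N : ℝ) ^ 2 := div_le_div_of_nonneg_right hPN (by positivity)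
      _ = η' * h := by
          rw [hh]
          field_simp
  have e3 : (N : ℝ) ^ k = (N : ℝ) ^ (k - 1) * N := by
    rw [← pow_succ]
    congr 1
    omega
  calc _ ≤ C * Real.exp u₀ * √((K : ℝ) + 1) / 16 ^ K * (η' * (h * 16 ^ K / √((K : ℝ) + 1)) +
      (N : ℝ) ^ 2 * (16 ^ K * (((N : ℝ) ^ 5)⁻¹ * P))) := mul_le_mul_of_nonneg_right hW1 hA
    _ = C * Real.exp u₀ * (η' * h + √((K : ℝ) + 1) * (P / (N : ℝ) ^ 3)) := e1
    _ ≤ C * Real.exp u₀ * (η' * h + η' * h) :=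
        mul_le_mul_of_nonneg_left (by linarith) (by positivity)
    _ ≤ C * (3 * (N : ℝ) ^ k) * (η' * h + η' * h) :=
        mul_le_mul_of_nonneg_right (mul_le_mul_of_nonneg_left hexp (by linarith)) (by positivity)
    _ = 6 * C * η' * (N : ℝ) ^ (k - 1) := by
        rw [e3, hh]
        field_simp
        ring

/-- the parameter `K` -/
theorem GA0_K (κ u₀ : ℝ) (k N K : ℕ) (hκ : 1 ≤ κ) (hk : 16 * κ + 16 ≤ k) (hk3 : 300 ≤ k) (hN3 : 3 ≤ N)
    (hkN : k ^ 2 ≤ N) (hu : u₀ = k * Real.log N + 1 / N) (hK : K = ⌊u₀ / 16⌋₊) :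
    κ * Real.log N ≤ K ∧ K ≤ N ∧ 16 ≤ K ∧ |u₀ / 16 - K| ≤ 1 := by
  have hN' : (3 : ℝ) ≤ N := by exact_mod_cast hN3
  have hk3' : (300 : ℝ) ≤ k := by exact_mod_cast hk3
  have hN0 : (0 : ℝ) < N := by linarith
  have hlog : 1 ≤ Real.log N := by
    rw [Real.le_log_iff_exp_le hN0]
    linarith [Real.exp_one_lt_d9]
  have hinv : 0 < 1 / (N : ℝ) := by positivity
  have hinv1 : 1 / (N : ℝ) ≤ 1 := by
    rw [div_le_one hN0]
    linarith
  have hu0 : 0 ≤ u₀ / 16 := by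
    rw [hu]
    positivity
  have hK1 : (K : ℝ) ≤ u₀ / 16 := by
    rw [hK]
    exact Nat.floor_le hu0
  have hK2 : u₀ / 16 < K + 1 := by
    rw [hK]
    exact Nat.lt_floor_add_one _
  have hsq : (k : ℝ) ≤ √N := by
    refine Real.le_sqrt_of_sq_le ?_
    exact_mod_cast hkN
  have hlog2 : Real.log N ≤ 2 * √N := by
    have h1 := Real.log_le_sub_one_of_pos (Real.sqrt_pos.2 hN0)
    rw [Real.log_sqrt hN0.le] at h1
    linarith
  have hkl : (k : ℝ) * Real.log N ≤ 2 * N := by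
    calc (k : ℝ) * Real.log N ≤ √N * (2 * √N) :=
          mul_le_mul hsq hlog2 (by linarith) (Real.sqrt_nonneg _)
      _ = 2 * N := by
          have := Real.mul_self_sqrt hN0.le
          linarith
  have hkk : (16 * κ + 16) * Real.log N ≤ k * Real.log N :=
    mul_le_mul_of_nonneg_right hk (by linarith)
  have hk300 : 300 * 1 ≤ (k : ℝ) * Real.log N := mul_le_mul hk3' hlog (by norm_num) (by linarith)
  refine ⟨?_, ?_, ?_, ?_⟩
  · nlinarith
  · have : (K : ℝ) ≤ N := by linarith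
    exact_mod_cast this
  · have : (16 : ℝ) ≤ K := by linarith
    exact_mod_cast this
  · rw [abs_le]
    constructor <;> linarith

theorem GA0 (hPPS : PPS_stmt) (hWTB : WTB_stmt) (hSER : SER_stmt) (hCORE : CORE_stmt)
    (hFWB : FWB_stmt) (hPRW : PRW_stmt) : GA0_stmt := by
  classical
  obtain ⟨C, hC, hF⟩ := hFWB
  obtain ⟨c', hc', hR⟩ := hPRW
  have hPn : ∀ n : ℕ, 0 ≤ (if n.Prime then 0 else Λ n * (n : ℝ) ^ (-(2 / 3) : ℝ)) := by
    intro n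
    split_ifs
    · exact le_rfl
    · have : (0 : ℝ) ≤ Λ n := ArithmeticFunction.vonMangoldt_nonneg
      positivity
  set P : ℝ := ∑' n : ℕ, (if n.Prime then 0 else Λ n * (n : ℝ) ^ (-(2 / 3) : ℝ)) with hPdef
  have hP : ∀ s : Finset ℕ, ∑ n ∈ s, (if n.Prime then 0 else Λ n * (n : ℝ) ^ (-(2 / 3) : ℝ)) ≤ P :=
    fun s => Summable.sum_le_tsum s (fun n _ => hPn n) hPPS
  have hP0 : 0 ≤ P := tsum_nonneg hPn
  refine ⟨c' / 48, by positivity, fun c₀ η hc₀ hη => ?_⟩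
  set η' : ℝ := η * (c' / 48) / (6 * C) with hη'
  have hη0 : 0 < η' := by positivity
  obtain ⟨κ, M₀, hκ, hM₀, hco⟩ := hCORE c₀ η' hc₀ hη0
  refine ⟨⌈16 * κ + 16⌉₊ + 300, by omega, fun k hk => ?_⟩
  have hk3 : 300 ≤ k := by omega
  have hkκ : 16 * κ + 16 ≤ k := by
    have h1 := Nat.le_ceil (16 * κ + 16)
    have h2 : (⌈16 * κ + 16⌉₊ : ℝ) ≤ k := by exact_mod_cast (by omega : ⌈16 * κ + 16⌉₊ ≤ k)
    linarith
  obtain ⟨N₁, hN₁⟩ := hR k (by omega)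
  refine ⟨(M₀ + N₁) + (k ^ 2 + (⌈2 * P / η'⌉₊ + 3)), by omega, fun N hN => ?_⟩
  have hN3 : 3 ≤ N := by omega
  have hkN : k ^ 2 ≤ N := by omega
  have hNM : M₀ ≤ N := by omega
  have hNN : N₁ ≤ N := by omega
  have hN' : (3 : ℝ) ≤ N := by exact_mod_cast hN3
  have hN0 : (0 : ℝ) < N := by linarith
  have hPN : 2 * P ≤ η' * N := by
    have h1 := Nat.le_ceil (2 * P / η')
    have h2 : (⌈2 * P / η'⌉₊ : ℝ) ≤ N := by exact_mod_cast (by omega : ⌈2 * P / η'⌉₊ ≤ N)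
    have h3 : 2 * P / η' ≤ N := h1.trans h2
    rw [div_le_iff₀ hη0] at h3
    linarith
  obtain ⟨h, hh⟩ : ∃ h : ℝ, h = 1 / (N : ℝ) := ⟨_, rfl⟩
  obtain ⟨u₀, hu⟩ : ∃ u₀ : ℝ, u₀ = k * Real.log N + 1 / (N : ℝ) := ⟨_, rfl⟩
  obtain ⟨K, hK⟩ : ∃ K : ℕ, K = ⌊u₀ / 16⌋₊ := ⟨_, rfl⟩
  obtain ⟨hK1, hK2, hK3, hK4⟩ := GA0_K κ u₀ k N K hκ hkκ hk3 hN3 hkN hu hK
  have hh0 : 0 < h := by rw [hh]; positivity
  have hh1 : h ≤ 1 := by
    rw [hh, div_le_one hN0]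
    linarith
  have hlog0 : 0 ≤ Real.log N := Real.log_nonneg (by linarith)
  have huh : u₀ - h = k * Real.log N := by rw [hu, hh]; ring
  have huh2 : u₀ + h = k * Real.log N + 2 / N := by rw [hu, hh]; ring
  obtain ⟨hf1, hf2, ⟨W, hW0, hW1, hW2⟩, hf4⟩ := hF K h u₀ hK3 hh0 hh1 (by rw [huh]; positivity)
  have hwin : ∀ n : ℕ, u₀ - h < Real.log n → Real.log n < u₀ + h → n ∈ Win k N := fun n h1 h2 =>
    GA0_win k N n (by omega) (by omega) (by rw [← huh]; exact h1) (by rw [← huh2]; exact h2)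
  have hwt : ∀ n, 0 ≤ wt (1 + 1 / 16) (K + 1) n :=
    (hSER 1 1 (K + 1) (1 / 16) le_rfl (by omega) (by norm_num)).2.1
  have hlow : c' / 48 * (N : ℝ) ^ (k - 1) ≤
      ∑ p ∈ Win k N, Real.log p * (if p.Prime then fw K h u₀ p else 0) := by
    have h1 := hN₁ N hNN u₀ h hu hh
    have h2 : ∀ p ∈ Win k N, 0 ≤ Real.log p * (if p.Prime then fw K h u₀ p else 0) := by
      intro p _
      refine mul_nonneg (Real.log_natCast_nonneg p) ?_
      split_ifs with hp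
      · exact (hf1 p hp.one_lt.le).1
      · exact le_rfl
    refine le_trans ?_ (Finset.sum_le_sum_of_subset_of_nonneg (Finset.filter_subset
      (fun p : ℕ => p.Prime ∧ |Real.log p - u₀| ≤ h / 2) (Win k N)) (fun p hp _ => h2 p hp))
    calc c' / 48 * (N : ℝ) ^ (k - 1) = (c' * (N : ℝ) ^ (k - 1)) * (1 / 48) := by ring
      _ ≤ (∑ p ∈ (Win k N).filter (fun p : ℕ => p.Prime ∧ |Real.log p - u₀| ≤ h / 2), Real.log p) *
          (1 / 48) := mul_le_mul_of_nonneg_right h1 (by norm_num)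
      _ ≤ _ := by
          rw [Finset.sum_mul]
          refine Finset.sum_le_sum fun p hp => ?_
          obtain ⟨-, hpp, hpu⟩ := Finset.mem_filter.1 hp
          rw [if_pos hpp]
          exact mul_le_mul_of_nonneg_left (hf4 hK4 p hpp.one_lt.le hpu) (Real.log_natCast_nonneg p)
  refine ⟨fun n => if n.Prime then fw K h u₀ n else 0, ?_, ?_, hlow, ?_⟩
  · intro n
    dsimp only
    split_ifs with hp
    · exact hf1 n hp.one_lt.le
    · exact ⟨le_rfl, zero_le_one⟩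
  · intro n hn
    dsimp only at hn
    split_ifs at hn with hp
    · obtain ⟨h1, h2⟩ := hf2 n hn
      exact ⟨hp, hwin n h1 h2⟩
    · exact absurd rfl hn
  · have hB := hco N hNM K hK1 hK2 h u₀ (by rw [hh]) hh1
    have h1 := GA0_sum hWTB P hP0 hP c₀ k N K h u₀ W _ (by omega) (by omega) hW0 hh0 hwt hwin hW2 hB
    have h2 := GA0_num C η' P h u₀ W k N K hC hη0 hP0 (by omega) (by omega) hK2 hu hh hPN hW1
    have h3 : 6 * C * η' * (N : ℝ) ^ (k - 1) = η * (c' / 48 * (N : ℝ) ^ (k - 1)) := by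
      rw [hη']
      field_simp
    calc _ ≤ _ := h1
      _ ≤ _ := h2
      _ = _ := h3
      _ ≤ _ := mul_le_mul_of_nonneg_left hlow hη.le

end Pool.Agent.TWG
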